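import Pool.Agent.helper23.CU.Spec

open Finset Filter Topology

namespace CU

theorem GA_mono {d n : ℕ} [NeZero n] : Monotone (Mg : Conf d n → ℝ) := by
  intro σ η h
  unfold Mg
  refine Finset.sum_le_sum fun x _ => ?_
  have hx : σ x ≤ η x := h x
  unfold sg
  cases h1 : σ x <;> cases h2 : η x <;> rw [h1, h2] at hx <;> first
    | exact absurd hx (by decide)
    | norm_num

theorem GA_le_plus {d n : ℕ} (σ : Conf d n) : σ ≤ plus := fun x => by
  show σ x ≤ true
  cases σ x <;> decide

/-- `Ex` as a linear map -/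
noncomputable def GA_E (hLIN : LIN_stmt) (d n : ℕ) [NeZero n] (β : ℝ) : (Conf d n → ℝ) →ₗ[ℝ] ℝ where
  toFun f := Ex β f
  map_add' f g := by
    have h := (hLIN d n β f g 1 1 0).2.2.1
    simp only [one_mul] at h
    exact h
  map_smul' c f := by
    have h := (hLIN d n β f f c 0 0).2.2.1
    simp only [zero_mul, add_zero] at h
    exact h

theorem GA_bound (hLIN : LIN_stmt) (hFLP : FLP_stmt) (d n : ℕ) [NeZero n] (β : ℝ) (s : ℕ)
    (A : Set (Conf d n)) (f : Conf d n → ℝ) (c0 c1 c2 c3 c4 : ℝ)
    (hf : ∀ σ, f σ ≤ c0 + c1 * A.indicator (fun _ => 1) σ + c2 * A.indicator (fun _ => 1) (flipc σ) +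
      c3 * (A.indicator (fun _ => 1) σ * gs β s σ) +
      c4 * (A.indicator (fun _ => 1) (flipc σ) * gs β s σ)) :
    Ex β f ≤ c0 + (c1 + c2) * PrE β A +
      (c3 - c4) * Ex β (fun σ : Conf d n => A.indicator (fun _ => 1) σ * gs β s σ) := by
  have h1 := (hLIN d n β f (fun σ => c0 + c1 * A.indicator (fun _ => 1) σ +
      c2 * A.indicator (fun _ => 1) (flipc σ) + c3 * (A.indicator (fun _ => 1) σ * gs β s σ) +
      c4 * (A.indicator (fun _ => 1) (flipc σ) * gs β s σ)) 0 0 0).2.2.2.1 hf
  refine h1.trans (le_of_eq ?_)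
  have e1 : Ex β (fun σ : Conf d n => A.indicator (fun _ => (1 : ℝ)) (flipc σ)) = PrE β A :=
    (hFLP d n β (A.indicator fun _ => 1) 0).2.1
  have e2 : Ex β (fun σ : Conf d n => A.indicator (fun _ => (1 : ℝ)) (flipc σ) * gs β s σ) =
      -Ex β (fun σ : Conf d n => A.indicator (fun _ => (1 : ℝ)) σ * gs β s σ) := by
    have h2 := (hFLP d n β (fun σ : Conf d n => A.indicator (fun _ => (1 : ℝ)) σ * gs β s σ) 0).2.1
    rw [← h2]
    have h3 : (fun σ : Conf d n => A.indicator (fun _ => (1 : ℝ)) (flipc σ) * gs β s (flipc σ)) =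
        (-1 : ℝ) • fun σ : Conf d n => A.indicator (fun _ => (1 : ℝ)) (flipc σ) * gs β s σ := by
      funext σ
      rw [Pi.smul_apply, smul_eq_mul, (hFLP d n β (fun _ => 0) 0).2.2 s σ]
      ring
    rw [h3]
    have h4 := (GA_E hLIN d n β).map_smul (-1 : ℝ)
      (fun σ : Conf d n => A.indicator (fun _ => (1 : ℝ)) (flipc σ) * gs β s σ)
    have h5 : Ex β ((-1 : ℝ) • fun σ : Conf d n =>
        A.indicator (fun _ => (1 : ℝ)) (flipc σ) * gs β s σ) =
        (-1 : ℝ) • Ex β (fun σ : Conf d n => A.indicator (fun _ => (1 : ℝ)) (flipc σ) * gs β s σ) := h4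
    rw [h5, smul_eq_mul]
    ring
  have e3 : Ex β (fun _ : Conf d n => c0) = c0 := (hLIN d n β f f c0 0 0).2.2.2.2
  have e4 : (fun σ : Conf d n => c0 + c1 * A.indicator (fun _ => (1 : ℝ)) σ +
      c2 * A.indicator (fun _ => 1) (flipc σ) + c3 * (A.indicator (fun _ => 1) σ * gs β s σ) +
      c4 * (A.indicator (fun _ => 1) (flipc σ) * gs β s σ)) =
      (fun _ => c0) + c1 • (A.indicator fun _ => (1 : ℝ)) +
        c2 • (fun σ => A.indicator (fun _ => (1 : ℝ)) (flipc σ)) +
        c3 • (fun σ => A.indicator (fun _ => (1 : ℝ)) σ * gs β s σ) +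
        c4 • (fun σ => A.indicator (fun _ => (1 : ℝ)) (flipc σ) * gs β s σ) := rfl
  rw [e4]
  show GA_E hLIN d n β _ = _
  rw [map_add, map_add, map_add, map_add, map_smul, map_smul, map_smul, map_smul]
  show Ex β (fun _ : Conf d n => c0) + c1 • PrE β A +
      c2 • Ex β (fun σ : Conf d n => A.indicator (fun _ => (1 : ℝ)) (flipc σ)) +
      c3 • Ex β (fun σ : Conf d n => A.indicator (fun _ => (1 : ℝ)) σ * gs β s σ) +
      c4 • Ex β (fun σ : Conf d n => A.indicator (fun _ => (1 : ℝ)) (flipc σ) * gs β s σ) = _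
  rw [e1, e2, e3]
  simp only [smul_eq_mul]
  ring

theorem GA (hMON : MON_stmt) (hLIN : LIN_stmt) (hFLP : FLP_stmt) (hAL : AL_stmt) : GA_stmt := by
  intro d n _ hn β hβ A s hyp
  have ha := hAL d n hn β hβ A s hyp
  obtain ⟨hs, hA, -, hP, hD⟩ := hyp
  have hmono : Monotone (gs β s : Conf d n → ℝ) := (hMON d n hn β hβ Mg GA_mono).2 s
  have hup : ∀ σ : Conf d n, gs β s σ ≤ gs β s (plus : Conf d n) := fun σ => hmono (GA_le_plus σ)
  have hflip : ∀ σ : Conf d n, gs β s (flipc σ) = -gs β s σ := (hFLP d n β (fun _ => 0) 0).2.2 s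
  have hlo : ∀ σ : Conf d n, -gs β s (plus : Conf d n) ≤ gs β s σ := by
    intro σ
    have := hup (flipc σ)
    rw [hflip] at this
    linarith
  set a : ℝ := gs β s (plus : Conf d n) with haa
  set m : ℝ := Ex β (fun σ : Conf d n => A.indicator (fun _ => 1) σ * gs β s σ) with hm
  -- the probability of `A`
  have hπ1 : 2 * PrE β A ≤ 1 := by
    have h0 := GA_bound hLIN hFLP d n β s A (fun _ => 0) 1 (-1) (-1) 0 0 (by
      intro σ
      by_cases h1 : σ ∈ A
      · rw [Set.indicator_of_mem h1, Set.indicator_of_notMem (hA σ h1)]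
        norm_num
      · by_cases h2 : flipc σ ∈ A
        · rw [Set.indicator_of_notMem h1, Set.indicator_of_mem h2]
          norm_num
        · rw [Set.indicator_of_notMem h1, Set.indicator_of_notMem h2]
          norm_num)
    rw [(hLIN d n β (fun _ => 0) (fun _ => 0) 0 0 0).2.2.2.2] at h0
    linarith
  have hπ2 : 1 - 2 * PrE β A ≤ 1 / 20000 := by
    have hs' : (2 : ℝ) ≤ s := by exact_mod_cast hs
    nlinarith
  -- the other claims
  have c2 : 48 / 100 ≤ PrE β (Gp (d := d) (n := n) β s) := by
    have h0 := GA_bound hLIN hFLP d n β s A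
      (A.indicator (fun _ => (1 : ℝ)) + (-1 : ℝ) • (Gp β s).indicator fun _ => (1 : ℝ))
      (100 * a) 0 0 (-100) 100 (by
      intro σ
      rw [Pi.add_apply, Pi.smul_apply, smul_eq_mul]
      have hu := hup σ
      have hl := hlo σ
      by_cases h1 : σ ∈ A
      · rw [Set.indicator_of_mem h1, Set.indicator_of_notMem (hA σ h1)]
        by_cases h3 : σ ∈ Gp β s
        · rw [Set.indicator_of_mem h3]
          nlinarith
        · rw [Set.indicator_of_notMem h3]
          have h4 : ¬ (a - 1 / 100 ≤ gs β s σ) := h3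
          nlinarith [not_le.1 h4]
      · rw [Set.indicator_of_notMem h1]
        have h5 : (0 : ℝ) ≤ (Gp β s).indicator (fun _ => (1 : ℝ)) σ :=
          Set.indicator_nonneg (fun _ _ => zero_le_one) σ
        by_cases h2 : flipc σ ∈ A
        · rw [Set.indicator_of_mem h2]
          nlinarith
        · rw [Set.indicator_of_notMem h2]
          nlinarith)
    have h6 : Ex β (A.indicator (fun _ => (1 : ℝ)) +
        (-1 : ℝ) • (Gp (d := d) (n := n) β s).indicator fun _ => (1 : ℝ)) =
        PrE β A - PrE β (Gp (d := d) (n := n) β s) := by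
      show GA_E hLIN d n β _ = _
      rw [map_add, map_smul]
      show PrE β A + (-1 : ℝ) • PrE β (Gp (d := d) (n := n) β s) = _
      rw [smul_eq_mul]
      ring
    rw [h6] at h0
    linarith
  have c1 : 48 / 100 ≤ PrE β (Gm (d := d) (n := n) β s) := by
    have h7 : PrE β (Gm (d := d) (n := n) β s) = PrE β (Gp (d := d) (n := n) β s) := by
      have h8 := (hFLP d n β ((Gp (d := d) (n := n) β s).indicator fun _ => (1 : ℝ)) 0).2.1
      unfold PrE
      rw [← h8]
      congr 1
      funext σ
      have h9 : σ ∈ Gm (d := d) (n := n) β s ↔ flipc σ ∈ Gp (d := d) (n := n) β s := by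
        show gs β s σ ≤ -gs β s (plus : Conf d n) + 1 / 100 ↔
          gs β s (plus : Conf d n) - 1 / 100 ≤ gs β s (flipc σ)
        rw [hflip]
        constructor <;> intro h <;> linarith
      by_cases h10 : σ ∈ Gm (d := d) (n := n) β s
      · rw [Set.indicator_of_mem h10, Set.indicator_of_mem (h9.1 h10)]
      · rw [Set.indicator_of_notMem h10, Set.indicator_of_notMem (fun h => h10 (h9.2 h))]
    rw [h7]
    exact c2
  have c3 : PrE β ((Gp (d := d) (n := n) β s ∪ Gm β s)ᶜ) ≤ 11 / 1000 := by
    have h0 := GA_bound hLIN hFLP d n β s A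
      (((Gp (d := d) (n := n) β s ∪ Gm β s)ᶜ).indicator (fun _ => (1 : ℝ)))
      (100 * a + 1) (-1) (-1) (-100) 100 (by
      intro σ
      have hu := hup σ
      have hl := hlo σ
      by_cases hc : σ ∈ (Gp (d := d) (n := n) β s ∪ Gm β s)ᶜ
      · rw [Set.indicator_of_mem hc]
        have h3 : ¬ (a - 1 / 100 ≤ gs β s σ) := fun h => hc (Or.inl h)
        have h4 : ¬ (gs β s σ ≤ -a + 1 / 100) := fun h => hc (Or.inr h)
        rw [not_le] at h3 h4
        by_cases h1 : σ ∈ A
        · rw [Set.indicator_of_mem h1, Set.indicator_of_notMem (hA σ h1)]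
          nlinarith
        · rw [Set.indicator_of_notMem h1]
          by_cases h2 : flipc σ ∈ A
          · rw [Set.indicator_of_mem h2]
            nlinarith
          · rw [Set.indicator_of_notMem h2]
            nlinarith
      · rw [Set.indicator_of_notMem hc]
        by_cases h1 : σ ∈ A
        · rw [Set.indicator_of_mem h1, Set.indicator_of_notMem (hA σ h1)]
          nlinarith
        · rw [Set.indicator_of_notMem h1]
          by_cases h2 : flipc σ ∈ A
          · rw [Set.indicator_of_mem h2]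
            nlinarith
          · rw [Set.indicator_of_notMem h2]
            nlinarith)
    have h1 : PrE β ((Gp (d := d) (n := n) β s ∪ Gm β s)ᶜ) = Ex β
      (((Gp (d := d) (n := n) β s ∪ Gm β s)ᶜ).indicator (fun _ => (1 : ℝ))) := rfl
    rw [h1]
    refine h0.trans ?_
    linarith
  have c4 : PrE β (A ∩ Gm β s) ≤ 2 / 10000 := by
    have h0 := GA_bound hLIN hFLP d n β s A
      ((A ∩ Gm (d := d) (n := n) β s).indicator (fun _ => (1 : ℝ)))
      ((100 / 89) * a) 0 0 (-(100 / 89)) (100 / 89) (by
      intro σ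
      have hu := hup σ
      have hl := hlo σ
      by_cases hc : σ ∈ A ∩ Gm (d := d) (n := n) β s
      · rw [Set.indicator_of_mem hc]
        have h4 : gs β s σ ≤ -a + 1 / 100 := hc.2
        rw [Set.indicator_of_mem hc.1, Set.indicator_of_notMem (hA σ hc.1)]
        nlinarith
      · rw [Set.indicator_of_notMem hc]
        by_cases h1 : σ ∈ A
        · rw [Set.indicator_of_mem h1, Set.indicator_of_notMem (hA σ h1)]
          nlinarith
        · rw [Set.indicator_of_notMem h1]
          by_cases h2 : flipc σ ∈ A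
          · rw [Set.indicator_of_mem h2]
            nlinarith
          · rw [Set.indicator_of_notMem h2]
            nlinarith)
    have h1 : PrE β (A ∩ Gm β s) = Ex β
      ((A ∩ Gm (d := d) (n := n) β s).indicator (fun _ => (1 : ℝ))) := rfl
    rw [h1]
    refine h0.trans ?_
    linarith
  have c5 : PrE β (Gp β s \ A) ≤ 5 / 10000 := by
    have h0 := GA_bound hLIN hFLP d n β s A
      ((Gp (d := d) (n := n) β s \ A).indicator (fun _ => (1 : ℝ)))
      ((100 / 89) * a + 1) (-1) (-1) (-(100 / 89)) (100 / 89) (by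
      intro σ
      have hu := hup σ
      have hl := hlo σ
      by_cases hc : σ ∈ Gp (d := d) (n := n) β s \ A
      · rw [Set.indicator_of_mem hc]
        have h4 : a - 1 / 100 ≤ gs β s σ := hc.1
        rw [Set.indicator_of_notMem hc.2]
        by_cases h2 : flipc σ ∈ A
        · rw [Set.indicator_of_mem h2]
          nlinarith
        · rw [Set.indicator_of_notMem h2]
          nlinarith
      · rw [Set.indicator_of_notMem hc]
        by_cases h1 : σ ∈ A
        · rw [Set.indicator_of_mem h1, Set.indicator_of_notMem (hA σ h1)]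
          nlinarith
        · rw [Set.indicator_of_notMem h1]
          by_cases h2 : flipc σ ∈ A
          · rw [Set.indicator_of_mem h2]
            nlinarith
          · rw [Set.indicator_of_notMem h2]
            nlinarith)
    have h1 : PrE β (Gp β s \ A) = Ex β
      ((Gp (d := d) (n := n) β s \ A).indicator (fun _ => (1 : ℝ))) := rfl
    rw [h1]
    refine h0.trans ?_
    linarith
  exact ⟨c1, c2, c3, c4, c5⟩

end CU
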