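import Pool.Agent.helper23.CU.SpecE

open Finset Filter Topology

namespace CU

theorem HG_box {n : ℕ} [NeZero n] (r : ℕ) (u x : Site 2 n) (hx : x ∈ Box r u) (k : Fin 2) :
    (x k - u k).valMinAbs.natAbs ≤ r := by
  unfold Box at hx
  rw [Finset.mem_filter] at hx
  exact hx.2 k

theorem HG_vma {n : ℕ} [NeZero n] (z : ZMod n) (t : ℤ) (ht : t.natAbs * 2 < n)
    (h : z = (t : ZMod n)) : z.valMinAbs = t := by
  rw [ZMod.valMinAbs_spec]
  refine ⟨h, ?_⟩
  rw [Set.mem_Ioc]
  omega

theorem HG_edge (n r : ℕ) [NeZero n] (hn : 4 * r + 8 ≤ n) (u : Site 2 n) (k : Fin 2) (j : ℤ)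
    (hj : j.natAbs ≤ r) (e : Edge 2 n) (h1 : e.1 ∈ Box r u) (h2 : dn e ∈ Box r u) :
    ((if (e.1 k - u k).valMinAbs < j then (1 : ZMod 2) else 0) +
      (if (dn e k - u k).valMinAbs < j then 1 else 0)) =
      if (e.2 = 1 - k ∧ e.1 k = u k + (j : ZMod n)) then 1 else 0 := by
  by_cases hk : e.2 = 1 - k
  · have hk' : 1 - e.2 = k := by
      rw [hk]
      exact (by decide : ∀ k : Fin 2, 1 - (1 - k) = k) k
    have hd : dn e k = e.1 k - 1 := by
      unfold dn ev
      rw [hk']
      simp
    set a : ℤ := (e.1 k - u k).valMinAbs with ha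
    have ha1 : a.natAbs ≤ r := HG_box r u _ h1 k
    have hcast : (a : ZMod n) = e.1 k - u k := ZMod.coe_valMinAbs _
    have hb : (dn e k - u k).valMinAbs = a - 1 := by
      apply HG_vma
      · omega
      · rw [hd]
        push_cast
        rw [hcast]
        ring
    have hiff : (e.1 k = u k + (j : ZMod n)) ↔ a = j := by
      constructor
      · intro h
        rw [ha]
        apply HG_vma
        · omega
        · rw [h]
          ring
      · intro h
        rw [← h, hcast]
        ring
    rw [hb]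
    have hand : (e.2 = 1 - k ∧ e.1 k = u k + (j : ZMod n)) ↔ a = j := by
      rw [hiff]
      exact ⟨fun h => h.2, fun h => ⟨hk, h⟩⟩
    rw [if_congr hand rfl rfl]
    rcases lt_trichotomy a j with h | h | h
    · rw [if_pos h, if_pos (by omega), if_neg (by omega)]
      decide
    · rw [if_neg (by omega), if_pos (by omega), if_pos h]
      decide
    · rw [if_neg (by omega), if_neg (by omega), if_neg (by omega)]
      decide
  · have hd : dn e k = e.1 k := by
      unfold dn ev
      have : k ≠ 1 - e.2 := by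
        intro h
        apply hk
        rw [h]
        exact (by decide : ∀ i : Fin 2, i = 1 - (1 - i)) e.2
      show e.1 k - (Pi.single (1 - e.2) 1 : Site 2 n) k = e.1 k
      rw [Pi.single_eq_of_ne this, sub_zero]
    rw [hd, if_neg (show ¬ (e.2 = 1 - k ∧ e.1 k = u k + (j : ZMod n)) from fun h => hk h.1)]
    split_ifs <;> decide

theorem HG : HG_stmt := by
  classical
  intro n r _ hn u v w γ hγ hbd hv hw k j hvj hjw
  have hj : j.natAbs ≤ r := by
    have h1 := HG_box r u v hv k
    have h2 := HG_box r u w hw k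
    omega
  let H : Finset (Site 2 n) := univ.filter fun z => (z k - u k).valMinAbs < j
  have hL : ∑ z ∈ H, bd γ z = 1 := by
    rw [hbd]
    unfold src
    rw [Finset.sum_add_distrib, Finset.sum_ite_eq', Finset.sum_ite_eq']
    rw [if_pos, if_neg, add_zero]
    · rw [Finset.mem_filter]
      rintro ⟨-, h⟩
      omega
    · rw [Finset.mem_filter]
      exact ⟨Finset.mem_univ _, hvj⟩
  have hR : ∑ z ∈ H, bd γ z =
      ∑ e ∈ γ, if (e.2 = 1 - k ∧ e.1 k = u k + (j : ZMod n)) then (1 : ZMod 2) else 0 := by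
    unfold bd
    rw [Finset.sum_comm]
    refine Finset.sum_congr rfl fun e he => ?_
    rw [Finset.sum_add_distrib, Finset.sum_ite_eq, Finset.sum_ite_eq]
    have hFS := hγ he
    unfold FS at hFS
    rw [Finset.mem_filter] at hFS
    rw [← HG_edge n r hn u k j hj e hFS.2.1 hFS.2.2]
    congr 1
    · refine if_congr ?_ rfl rfl
      simp [H]
    · refine if_congr ?_ rfl rfl
      simp [H]
  have hS : (∑ y : Site 2 n, if y k = u k + (j : ZMod n) ∧ (y, 1 - k) ∈ γ then (1 : ZMod 2)
      else 0) = ∑ e ∈ γ, if (e.2 = 1 - k ∧ e.1 k = u k + (j : ZMod n)) then (1 : ZMod 2)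
      else 0 := by
    have e1 : (∑ e ∈ γ, if (e.2 = 1 - k ∧ e.1 k = u k + (j : ZMod n)) then (1 : ZMod 2) else 0) =
        ∑ e : Edge 2 n, if e ∈ γ then
          (if (e.2 = 1 - k ∧ e.1 k = u k + (j : ZMod n)) then (1 : ZMod 2) else 0) else 0 := by
      rw [Finset.sum_ite_mem, Finset.univ_inter]
    rw [e1, Fintype.sum_prod_type]
    refine Finset.sum_congr rfl fun y _ => ?_
    rw [Finset.sum_eq_single (1 - k)]
    · by_cases h1 : (y, 1 - k) ∈ γ <;> by_cases h2 : y k = u k + (j : ZMod n) <;>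
        simp [h1, h2]
    · intro i _ hi
      by_cases h1 : (y, i) ∈ γ <;> simp [h1, hi]
    · intro h
      exact absurd (Finset.mem_univ _) h
  rw [hS, ← hR, hL]

end CU
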